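import Mathlib

set_option autoImplicit false
set_option maxRecDepth 100000

namespace Pool.Agent.Results.MP_fca4fc_co.Counter
open Classical

/-- `v` is a legal choice after the vertices of `S` have been chosen -/
def Legal {V : Type} (G : SimpleGraph V) (S : Finset V) (v : V) : Prop :=
  v ∉ S ∧ ∃ u, (u = v ∨ G.Adj v u) ∧ ∀ s ∈ S, ¬ G.Adj s u

/-- number of remaining moves under optimal play; the flag is true when Dominator moves; the
first argument bounds the number of remaining moves -/
noncomputable def val {V : Type} [Fintype V] (G : SimpleGraph V) : ℕ → Finset V → Bool → ℕ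
  | 0, _, _ => 0
  | f + 1, S, d =>
    if h : (Finset.univ.filter (Legal G S)).Nonempty then
      if d then (Finset.univ.filter (Legal G S)).inf' h fun v => 1 + val G f (insert v S) false
      else (Finset.univ.filter (Legal G S)).sup' h fun v => 1 + val G f (insert v S) true
    else 0

/-- the L-domination game number (no vertex is chosen twice, so `n` moves always suffice) -/
noncomputable def gammaL {V : Type} [Fintype V] (G : SimpleGraph V) : ℕ :=
  val G (Fintype.card V) ∅ true

def ad (a b : Fin 8) : Bool := (a.1 + 1 == b.1 || b.1 + 1 == a.1) && a.1 / 4 == b.1 / 4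

def G : SimpleGraph (Fin 8) where
  Adj a b := ad a b = true
  symm := ⟨by decide⟩
  loopless := ⟨by decide⟩

def lg (S : List (Fin 8)) (v : Fin 8) : Bool :=
  !S.contains v && (List.finRange 8).any fun u => (u == v || ad v u) && S.all fun s => !ad s u

def al : ℕ → List (Fin 8) → Bool → Bool
  | 0, _, _ => true
  | k + 1, S, true => (List.finRange 8).any (lg S) &&
      (List.finRange 8).all fun v => !lg S v || al k (v :: S) false
  | k + 1, S, false => (List.finRange 8).any fun v => lg S v && al k (v :: S) true

lemma al_ok : al 7 [] true = true := by decide +kernel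

lemma lg_iff (S : List (Fin 8)) (T : Finset (Fin 8)) (h : ∀ x, x ∈ T ↔ x ∈ S) (v : Fin 8) :
    lg S v = true ↔ Legal G T v := by
  simp [lg, Legal, G, h]

lemma sound : ∀ (k f : ℕ) (S : List (Fin 8)) (T : Finset (Fin 8)) (d : Bool), k ≤ f →
    (∀ x, x ∈ T ↔ x ∈ S) → al k S d = true → k ≤ val G f T d := by
  intro k
  induction k with
  | zero => intros; exact Nat.zero_le _
  | succ k ih =>
    intro f S T d hf hT h
    obtain ⟨f, rfl⟩ : ∃ g, f = g + 1 := ⟨f - 1, by omega⟩
    cases d with
    | true =>
      simp only [al, Bool.and_eq_true, List.any_eq_true, List.all_eq_true, Bool.or_eq_true,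
        Bool.not_eq_true'] at h
      obtain ⟨⟨v, -, hv⟩, h2⟩ := h
      have ne : (Finset.univ.filter (Legal G T)).Nonempty :=
        ⟨v, by simpa using (lg_iff S T hT v).1 hv⟩
      rw [val, dif_pos ne, if_pos rfl, Finset.le_inf'_iff]
      intro w hw
      have hw' := (lg_iff S T hT w).2 (by simpa using hw)
      have := ih f (w :: S) (@insert _ _ (@Finset.instInsert _ fun a b => propDecidable (a = b)) w T)
        false (by omega) (by simp [hT])
        ((h2 w (List.mem_finRange w)).resolve_left (by simp [hw']))
      omega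
    | false =>
      simp only [al, Bool.and_eq_true, List.any_eq_true] at h
      obtain ⟨v, -, hv, h2⟩ := h
      have mv : v ∈ Finset.univ.filter (Legal G T) := by simpa using (lg_iff S T hT v).1 hv
      rw [val, dif_pos ⟨v, mv⟩, if_neg (by simp), Finset.le_sup'_iff]
      refine ⟨v, mv, ?_⟩
      have := ih f (v :: S) (@insert _ _ (@Finset.instInsert _ fun a b => propDecidable (a = b)) v T)
        true (by omega) (by simp [hT]) h2
      omega

theorem result : ∃ (V : Type) (_ : Fintype V) (H : SimpleGraph V), (∀ v, ∃ u, H.Adj v u) ∧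
    (∀ v, ∃ a b, a ≠ b ∧ a ≠ v ∧ b ≠ v ∧ H.Reachable v a ∧ H.Reachable v b) ∧
    6 * Fintype.card V < 7 * gammaL H := by
  refine ⟨Fin 8, inferInstance, G, (by decide : ∀ v, ∃ u, ad v u = true), fun v => ?_, ?_⟩
  · have : ∀ v, ∃ a b, a ≠ b ∧ a ≠ v ∧ b ≠ v ∧ ad v a = true ∧
        (ad v b = true ∨ ad a b = true) := by decide
    obtain ⟨a, b, h1, h2, h3, h4, h5⟩ := this v
    have r : G.Reachable v a := SimpleGraph.Adj.reachable h4
    refine ⟨a, b, h1, h2, h3, r, ?_⟩
    rcases h5 with h | h
    · exact SimpleGraph.Adj.reachable h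
    · exact r.trans (SimpleGraph.Adj.reachable h)
  · have := sound 7 8 [] ∅ true (by omega) (by simp) al_ok
    simp only [gammaL, Fintype.card_fin]
    omega

end Pool.Agent.Results.MP_fca4fc_co.Counter
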